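import Mathlib
import Pool.Agent.Helper59.ZP.LevelDefs

/-!
# Tate classes and systems of classes: definitions

`W` is a Weil cohomology theory `H` over a field `k`, with coefficients in a field `K`.
-/

universe u v w

open CategoryTheory AlgebraicGeometry

namespace Pool.Agent.Helper59.TQS

open Pool.Agent.Helper10 SmProjVar

variable {k : Type u} [Field k] {K : Type v} [Field K]

/-- The morphism `F` raises the coordinates of the points with values in the field `L` to the power
`q`: if `φ` is the homomorphism `a ↦ a ^ q` of `L`, then `F` maps a point `y` to its composition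
with `φ`. -/
def IsPowerOn {S : Scheme.{u}} (F : S ⟶ S) (q : ℕ) (L : Type u) [Field L] : Prop :=
  ∀ φ : L →+* L, (∀ a, φ a = a ^ q) → ∀ y : Spec (CommRingCat.of L) ⟶ S,
    y ≫ F = Spec.map (CommRingCat.ofHom φ) ≫ y

/-- `F` is the Frobenius endomorphism of `Y` over the finite field `k`: it raises the coordinates of
all points to the power `q`, the number of elements of `k`. -/
def IsFrobenius (Y : SmProjVar k) (F : Y.toOver ⟶ Y.toOver) : Prop :=
  ∀ (L : Type u) [Field L], IsPowerOn F.left (Nat.card k) L

/-- The space `T(Y)` of the Tate classes in `H(Y)`, for the field `k` with `q` elements: the span of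
the classes in the `H^{2 j}(Y)` which are annihilated by a power of `F - q ^ j`, where `F` is the
Frobenius endomorphism. -/
def tateClasses (W : CohomologyData.{u, v, w} k K) (Y : SmProjVar k) : Submodule K (W.H Y) :=
  Submodule.span K {u : W.H Y | ∃ (F : Y.toOver ⟶ Y.toOver) (j N : ℕ), IsFrobenius Y F ∧
    u ∈ W.gr Y (2 * j) ∧ (fun y => W.pull F y - (Nat.card k : K) ^ j • y)^[N] u = 0}

/-- The Frobenius endomorphism acts semisimply on `H(Y)`. -/
def IsFrobeniusSemisimple (W : CohomologyData.{u, v, w} k K) (Y : SmProjVar k) : Prop :=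
  ∀ (F : Y.toOver ⟶ Y.toOver) (T : Module.End K (W.H Y)), IsFrobenius Y F →
    (∀ y, T y = W.pull F y) → T.IsSemisimple

/-- The quotient `n(X ^ (m + 1)) / dim V m`, where `n(Y)` is the dimension of the span of the classes
of algebraic cycles in `H(Y)` modulo numerical equivalence. -/
noncomputable def proportion (W : CohomologyData.{u, v, w} k K) (X : SmProjVar k)
    (V : ∀ m : ℕ, Submodule K (W.H (X.selfProd m))) (m : ℕ) : ℝ :=
  (Pool.Agent.Helper59.ZP.numCycRank W (X.selfProd m) : ℝ) / Module.finrank K (V m)

/-- The spaces `V m` of classes in `H(X ^ (m + 1))` contain the classes of algebraic cycles, and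
algebraic correspondences map them into each other. -/
structure IsSystem (W : CohomologyData.{u, v, w} k K) (X : SmProjVar k)
    (V : ∀ m : ℕ, Submodule K (W.H (X.selfProd m))) : Prop where
  alg_le : ∀ m, W.algClasses (X.selfProd m) ≤ V m
  map_mem : ∀ (m n : ℕ) (f : W.H (X.selfProd m) → W.H (X.selfProd n)),
    W.IsAlgebraicMap (X.selfProd m) (X.selfProd n) f → ∀ u ∈ V m, f u ∈ V n

end Pool.Agent.Helper59.TQS
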