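import Mathlib
import Pool.Agent.Helper59.P2.Limit
import Pool.Agent.Helper59.TQS.Defs

/-!
# The quantization law for Tate classes, with Frobenius characterised by its properties
-/

universe u v w

open CategoryTheory AlgebraicGeometry Filter Topology

namespace Pool.Agent.Helper59.TQS

open Pool.Agent.Helper10 Pool.Agent.Helper11 SmProjVar

section

variable {k : Type u} [Field k] [Finite k]

lemma isFrobenius_frob (Y : SmProjVar k) : IsFrobenius Y (frob Y) := by
  intro L _ φ hφ y
  let X : Over (Spec (CommRingCat.of k)) := Over.mk (y ≫ Y.toOver.hom)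
  let f : X ⟶ Y.toOver := Over.homMk y
  have h1 : (frobOver X ≫ f).left = (f ≫ frobOver Y.toOver).left := by rw [frobOver_comp]
  rw [Over.comp_left, Over.comp_left] at h1
  have hX : IsAffine X.left := inferInstanceAs (IsAffine (Spec (CommRingCat.of L)))
  have h2 : (frobOver X).left = Spec.map (CommRingCat.ofHom φ) := by
    apply ext_of_isAffine
    ext s
    obtain ⟨c, rfl⟩ :=
      (Scheme.ΓSpecIso (CommRingCat.of L)).commRingCatIsoToRingEquiv.symm.surjective s
    have h3 := congrArg (fun g => g.hom c)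
      (Scheme.ΓSpecIso_inv_naturality (CommRingCat.ofHom φ))
    refine Eq.trans ?_ h3
    change ((Scheme.ΓSpecIso (CommRingCat.of L)).inv.hom c) ^ Nat.card k =
      (Scheme.ΓSpecIso (CommRingCat.of L)).inv.hom (φ c)
    rw [hφ c, map_pow]
  rw [h2] at h1
  exact h1.symm

lemma eq_frob {Y : SmProjVar k} {F : Y.toOver ⟶ Y.toOver} (hF : IsFrobenius Y F) : F = frob Y := by
  ext1
  let η : Y.toOver.left := genericPoint Y.toOver.left
  let y := Y.toOver.left.fromSpecResidueField η
  have hdom : IsDominant y := by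
    constructor
    have : Set.range y = {η} := Scheme.range_fromSpecResidueField η
    rw [DenseRange, this]
    exact (dense_iff_closure_eq.mpr (genericPoint_spec Y.toOver.left))
  let L := Y.toOver.left.residueField η
  have hadd := pow_card_add_of_ringHom (residueHom Y η)
  let φ : L →+* L := frobHom (Nat.card k) L ⟨Nat.card_pos.ne', hadd⟩
  have h1 := hF L φ (fun a => rfl) y
  have h2 := isFrobenius_frob Y L φ (fun a => rfl) y
  exact ext_of_isDominant_of_isSeparated Y.toOver.hom ((Over.w F).trans (Over.w (frob Y)).symm) y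
    (h1.trans h2.symm)

variable {K : Type v} [Field K]

lemma tateClasses_eq (W : CohomologyData.{u, v, w} k K) (Y : SmProjVar k) :
    tateClasses W Y = Pool.Agent.Helper59.ZP.tateClasses W Y := by
  unfold tateClasses Pool.Agent.Helper59.ZP.tateClasses
  congr 1
  ext u
  constructor
  · rintro ⟨F, j, N, hF, hu, h⟩
    rw [eq_frob hF] at h
    exact ⟨j, hu, N, h⟩
  · rintro ⟨j, hu, N, h⟩
    exact ⟨frob Y, j, N, isFrobenius_frob Y, hu, h⟩

lemma isFrobeniusSemisimple_of (W : CohomologyData.{u, v, w} k K) (Y : SmProjVar k)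
    (h : Pool.Agent.Helper59.ZP.IsFrobeniusSemisimple W Y) : IsFrobeniusSemisimple W Y := by
  intro F T hF hT
  refine h T fun y => ?_
  rw [hT y, eq_frob hF]

end

/-- **The quantization law for Tate classes.** -/
theorem tate {k : Type u} [Field k] [Finite k] {K : Type v} [Field K] [CharZero K]
    (W : WeilCohomology.{u, v, w} k K) (X : SmProjVar k) : ∃ L : ℝ,
      Tendsto (proportion W.toCohomologyData X fun m => tateClasses W.toCohomologyData
        (X.selfProd m)) atTop (𝓝 L) ∧
      (L = 0 ∨ ∃ d : ℕ, 1 ≤ d ∧ L = 1 / d) ∧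
      (L ≠ 0 → ∀ m, W.StandardD (X.selfProd m) ∧
        IsFrobeniusSemisimple W.toCohomologyData (X.selfProd m)) ∧
      (L = 1 ↔ ∀ m, tateClasses W.toCohomologyData (X.selfProd m) =
        W.algClasses (X.selfProd m)) := by
  obtain ⟨L, h1, h2, h3, h4⟩ := Pool.Agent.Helper59.P2.limit_law_tate W X
  refine ⟨L, ?_, h2, fun h m => ⟨(h3 h m).1, isFrobeniusSemisimple_of _ _ (h3 h m).2⟩,
    h4.trans ?_⟩
  · refine h1.congr fun m => ?_
    have e : Module.finrank K (tateClasses W.toCohomologyData (X.selfProd m)) = Module.finrank K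
        (Pool.Agent.Helper59.ZP.tateClasses W.toCohomologyData (X.selfProd m)) := by
      rw [tateClasses_eq]
    change _ = (_ : ℝ) /
      (Module.finrank K (tateClasses W.toCohomologyData (X.selfProd m)) : ℝ)
    rw [e]
    rfl
  · rw [Pool.Agent.Helper59.ZP.isAlgebraicSystem_iff
      (Pool.Agent.Helper59.ZP.tate_law W X).1.toIsSystem]
    refine forall_congr' fun m => ?_
    rw [tateClasses_eq]
    rfl

/-- **The quantization law for systems of classes.** -/
theorem system {k : Type u} [Field k] {K : Type v} [Field K] [CharZero K]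
    (W : WeilCohomology.{u, v, w} k K) (X : SmProjVar k)
    (V : ∀ m : ℕ, Submodule K (W.H (X.selfProd m))) (hV : IsSystem W.toCohomologyData X V) :
    ∃ L : ℝ, Tendsto (proportion W.toCohomologyData X V) atTop (𝓝 L) ∧
      (L = 0 ∨ ∃ d : ℕ, 1 ≤ d ∧ L = 1 / d) ∧
      (L ≠ 0 → ∀ m, W.StandardD (X.selfProd m)) ∧
      (L = 1 ↔ ∀ m, W.StandardD (X.selfProd m) ∧ V m = W.algClasses (X.selfProd m)) :=
  Pool.Agent.Helper59.P2.limit_law ⟨hV.1, hV.2⟩

end Pool.Agent.Helper59.TQS
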